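import Mathlib

set_option autoImplicit false

namespace Pool.Agent.V11293.MIX

open Finset

/-- Data of a positive unit eigenvector of a `0/1` symmetric matrix. -/
structure PD {V : Type*} [Fintype V] [DecidableEq V] (A : V → V → ℝ) (v : V → ℝ) (lam : ℝ) :
    Prop where
  symm : ∀ a b, A a b = A b a
  diag : ∀ a, A a a = 0
  zo : ∀ a b, A a b = 0 ∨ A a b = 1
  pos : ∀ a, 0 < v a
  norm : ∑ a, v a ^ 2 = 1
  eig : ∀ a, ∑ b, A a b * v b = lam * v a
  half : ∀ a, v a ^ 2 ≤ 1 / 2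
  pair : ∀ a c, a ≠ c → 2 * lam * (v a ^ 2 + v c ^ 2) ^ 2 ≤
    lam * (v a ^ 2 + v c ^ 2) + 2 * A a c * v a * v c
  deg : ∀ a, 1 ≤ ∑ b, A a b

section
variable {V : Type*} [Fintype V] [DecidableEq V] {A : V → V → ℝ} {v : V → ℝ} {lam : ℝ}

/-- indicator of `b ≠ c` and nonadjacency -/
def nA (A : V → V → ℝ) (c b : V) : ℝ := 1 - A c b - (if b = c then 1 else 0)

def Df (A : V → V → ℝ) (v : V → ℝ) (a c : V) : ℝ := ∑ b, A a b * nA A c b * v b

theorem nA_nonneg (h : PD A v lam) (c b : V) : 0 ≤ nA A c b := by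
  unfold nA
  by_cases hbc : b = c
  · subst hbc
    simp [h.diag]
  · rcases h.zo c b with h0 | h1 <;> simp [hbc, *]

theorem A_nonneg (h : PD A v lam) (c b : V) : 0 ≤ A c b := by
  rcases h.zo c b with h0 | h1 <;> simp [*]

theorem Df_nonneg (h : PD A v lam) (a c : V) : 0 ≤ Df A v a c :=
  Finset.sum_nonneg fun b _ => mul_nonneg (mul_nonneg (A_nonneg h a b) (nA_nonneg h c b)) (h.pos b).le

theorem Df_eq (h : PD A v lam) (a c : V) :
    Df A v a c = lam * v a - (∑ b, A a b * A c b * v b) - A a c * v c := by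
  unfold Df nA
  rw [← h.eig a, ← Finset.sum_sub_distrib]
  have h1 : A a c * v c = ∑ b, A a b * (if b = c then 1 else 0) * v b := by
    simp [Finset.sum_ite_eq']
  rw [h1, ← Finset.sum_sub_distrib]
  apply Finset.sum_congr rfl
  intro b _
  ring

theorem Df_sub (h : PD A v lam) (a c : V) :
    Df A v a c - Df A v c a = (lam + A a c) * (v a - v c) := by
  rw [Df_eq h, Df_eq h]
  have h1 : ∑ b, A c b * A a b * v b = ∑ b, A a b * A c b * v b :=
    Finset.sum_congr rfl fun b _ => by ring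
  rw [h1, h.symm c a]
  ring

theorem lam_pos [Nonempty V] (h : PD A v lam) : 0 < lam := by
  obtain ⟨a⟩ := ‹Nonempty V›
  have h1 : 0 < ∑ b, A a b * v b := by
    by_contra hcon
    have h2 : ∀ b ∈ (univ : Finset V), 0 ≤ A a b * v b := fun b _ => mul_nonneg (A_nonneg h a b) (h.pos b).le
    have h3 : ∑ b, A a b * v b = 0 := le_antisymm (not_lt.mp hcon) (Finset.sum_nonneg h2)
    rw [Finset.sum_eq_zero_iff_of_nonneg h2] at h3
    have h4 : ∑ b, A a b = 0 := Finset.sum_eq_zero fun b hb => by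
      rcases mul_eq_zero.mp (h3 b hb) with h5 | h5
      · exact h5
      · exact absurd h5 (h.pos b).ne'
    have := h.deg a
    linarith
  rw [h.eig a] at h1
  exact (pos_iff_pos_of_mul_pos h1).mpr (h.pos a)

/-- the exact identity -/
theorem lamU (h : PD A v lam) :
    ∑ a, ∑ c, v a * Df A v a c = lam * ∑ b, v b ^ 2 * ∑ c, nA A c b := by
  have h1 : ∀ a, ∑ c, v a * Df A v a c = ∑ b, v b * (A b a * v a) * ∑ c, nA A c b := by
    intro a
    unfold Df
    simp_rw [Finset.mul_sum]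
    rw [Finset.sum_comm]
    apply Finset.sum_congr rfl
    intro b _
    apply Finset.sum_congr rfl
    intro c _
    rw [h.symm a b]
    ring
  simp_rw [h1]
  rw [Finset.sum_comm, Finset.mul_sum]
  apply Finset.sum_congr rfl
  intro b _
  rw [← Finset.sum_mul, ← Finset.mul_sum, h.eig b]
  ring

theorem sum_nA (h : PD A v lam) (b : V) :
    ∑ c, nA A c b = (Fintype.card V : ℝ) - 1 - ∑ c, A b c := by
  unfold nA
  simp only [Finset.sum_sub_distrib, Finset.sum_const, Finset.card_univ, nsmul_eq_mul, mul_one,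
    Finset.sum_ite_eq, Finset.mem_univ, if_true]
  have : ∑ c, A c b = ∑ c, A b c := Finset.sum_congr rfl fun c _ => h.symm c b
  rw [this]
  ring

/-- symmetric resource -/
def Rs (A : V → V → ℝ) (v : V → ℝ) (a c : V) : ℝ := v a * Df A v a c + v c * Df A v c a

theorem Rs_symm (a c : V) : Rs A v a c = Rs A v c a := by unfold Rs; ring

theorem Rs_lower (h : PD A v lam) (a c : V) :
    (lam + A a c) * v a * (v a - v c) ≤ Rs A v a c := by
  have h1 := Df_sub h a c
  have h2 := Df_nonneg h c a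
  have h3 := (h.pos a).le
  have h4 := (h.pos c).le
  unfold Rs
  have h5 : v a * Df A v a c + v c * Df A v c a =
      (lam + A a c) * v a * (v a - v c) + (v a + v c) * Df A v c a := by
    have : Df A v a c = Df A v c a + (lam + A a c) * (v a - v c) := by linarith
    rw [this]; ring
  rw [h5]
  nlinarith [mul_nonneg (add_nonneg h3 h4) h2]

theorem sum_Rs (h : PD A v lam) :
    ∑ a, ∑ c, Rs A v a c = 2 * (lam * ((Fintype.card V : ℝ) - 1 - ∑ a, v a ^ 2 * ∑ b, A a b)) := by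
  have h1 : ∑ a, ∑ c, Rs A v a c = (∑ a, ∑ c, v a * Df A v a c) + ∑ a, ∑ c, v c * Df A v c a := by
    rw [← Finset.sum_add_distrib]
    apply Finset.sum_congr rfl
    intro a _
    rw [← Finset.sum_add_distrib]
    rfl
  have h2 : ∑ a, ∑ c, v c * Df A v c a = ∑ a, ∑ c, v a * Df A v a c := by
    rw [Finset.sum_comm]
  have h3 : ∑ b, v b ^ 2 * ∑ c, nA A c b =
      (Fintype.card V : ℝ) - 1 - ∑ a, v a ^ 2 * ∑ b, A a b := by
    simp_rw [sum_nA h]
    have : ∀ b, v b ^ 2 * ((Fintype.card V : ℝ) - 1 - ∑ c, A b c) =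
        v b ^ 2 * ((Fintype.card V : ℝ) - 1) - v b ^ 2 * ∑ c, A b c := fun b => by ring
    simp_rw [this]
    rw [Finset.sum_sub_distrib, ← Finset.sum_mul, h.norm]
    ring
  rw [h1, h2, lamU h, h3]
  ring

/-- cost -/
def Cs (v : V → ℝ) (a c : V) : ℝ := (v a ^ 2 - v c ^ 2) ^ 2

theorem sum_Cs (h : PD A v lam) :
    ∑ a, ∑ c, Cs v a c = 2 * ((Fintype.card V : ℝ) * ∑ a, v a ^ 4) - 2 := by
  unfold Cs
  have h1 : ∀ a c : V, (v a ^ 2 - v c ^ 2) ^ 2 = v a ^ 4 - 2 * (v a ^ 2 * v c ^ 2) + v c ^ 4 :=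
    fun a c => by ring
  simp_rw [h1]
  simp only [Finset.sum_add_distrib, Finset.sum_sub_distrib, ← Finset.mul_sum, Finset.sum_const,
    Finset.card_univ, nsmul_eq_mul, h.norm, mul_one]
  ring

end

end Pool.Agent.V11293.MIX
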