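import Mathlib

set_option autoImplicit false

namespace Pool.Agent.V11293.MIX

open Finset

section
variable {ι : Type*} [Fintype ι] [DecidableEq ι]

theorem fib_sq (μ q : ι → ℝ) :
    ∑ θ ∈ univ.image μ, (∑ i ∈ univ.filter (fun i => μ i = θ), q i) ^ 2 =
      ∑ i, ∑ j, if μ i = μ j then q i * q j else 0 := by
  have h1 : ∀ θ ∈ univ.image μ, (∑ i ∈ univ.filter (fun i => μ i = θ), q i) ^ 2 =
      ∑ i ∈ univ.filter (fun i => μ i = θ), ∑ j, if μ i = μ j then q i * q j else 0 := by
    intro θ _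
    rw [pow_two, Finset.sum_mul]
    apply Finset.sum_congr rfl
    intro i hi
    rw [Finset.mem_filter] at hi
    rw [Finset.mul_sum, ← Finset.sum_filter]
    apply Finset.sum_congr _ (fun _ _ => rfl)
    ext j
    simp only [Finset.mem_filter, Finset.mem_univ, true_and]
    rw [hi.2]
    exact eq_comm
  rw [Finset.sum_congr rfl h1]
  exact Finset.sum_fiberwise_of_maps_to (fun i _ => Finset.mem_image_of_mem μ (Finset.mem_univ i)) _

theorem dist_bound (μ q : ι → ℝ) (i0 : ι) (x d s : ℝ) (hq : ∀ i, 0 ≤ q i) (h1 : ∑ i, q i = 1)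
    (h2 : ∑ i, μ i * q i = 0) (h3 : ∑ i, μ i ^ 2 * q i = d) (hx : q i0 = x)
    (hs : s = ∑ i ∈ univ.erase i0, μ i ^ 2) (hs0 : 0 < s) (hne : ∀ i, i ≠ i0 → μ i ≠ μ i0) :
    ∑ θ ∈ univ.image μ, (∑ i ∈ univ.filter (fun i => μ i = θ), q i) ^ 2 ≤
      1 - 2 * x * (1 - x) - (d * (1 - x) - μ i0 ^ 2 * x) / s := by
  rw [fib_sq]
  have e1 : ∑ i ∈ univ.erase i0, q i = 1 - x := by
    rw [← Finset.add_sum_erase univ q (Finset.mem_univ i0), hx] at h1
    linarith
  have e2 : ∑ i ∈ univ.erase i0, μ i * q i = -(μ i0 * x) := by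
    rw [← Finset.add_sum_erase univ (fun i => μ i * q i) (Finset.mem_univ i0), hx] at h2
    linarith
  have e3 : ∑ i ∈ univ.erase i0, μ i ^ 2 * q i = d - μ i0 ^ 2 * x := by
    rw [← Finset.add_sum_erase univ (fun i => μ i ^ 2 * q i) (Finset.mem_univ i0), hx] at h3
    linarith
  have e4 : ∑ i ∈ univ.erase i0, ∑ j ∈ univ.erase i0, q i * q j * (μ i - μ j) ^ 2 =
      2 * (d * (1 - x) - μ i0 ^ 2 * x) := by
    have : ∀ i j, q i * q j * (μ i - μ j) ^ 2 =
        (μ i ^ 2 * q i) * q j + q i * (μ j ^ 2 * q j) - 2 * ((μ i * q i) * (μ j * q j)) := by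
      intro i j; ring
    simp_rw [this]
    simp only [Finset.sum_sub_distrib, Finset.sum_add_distrib, ← Finset.mul_sum, ← Finset.sum_mul]
    rw [e1, e2, e3]
    ring
  -- pointwise for i, j ≠ i0
  have e5 : ∀ i ∈ univ.erase i0, ∀ j ∈ univ.erase i0,
      (if μ i = μ j then q i * q j else 0) ≤ q i * q j - q i * q j * (μ i - μ j) ^ 2 / (2 * s) := by
    intro i hi j hj
    by_cases hij : μ i = μ j
    · simp [hij]
    · rw [if_neg hij]
      have hij' : i ≠ j := fun h => hij (by rw [h])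
      have h6 : μ i ^ 2 + μ j ^ 2 ≤ s := by
        rw [hs]
        have h7 : ∑ k ∈ ({i, j} : Finset ι), μ k ^ 2 = μ i ^ 2 + μ j ^ 2 := Finset.sum_pair hij'
        rw [← h7]
        apply Finset.sum_le_sum_of_subset_of_nonneg
        · intro k hk
          rw [Finset.mem_insert, Finset.mem_singleton] at hk
          rcases hk with rfl | rfl
          · exact hi
          · exact hj
        · intro _ _ _; exact sq_nonneg _
      have h8 : (μ i - μ j) ^ 2 / (2 * s) ≤ 1 := by
        rw [div_le_one (by linarith)]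
        nlinarith [sq_nonneg (μ i + μ j)]
      have h9 := mul_nonneg (hq i) (hq j)
      have h10 : q i * q j * (μ i - μ j) ^ 2 / (2 * s) = q i * q j * ((μ i - μ j) ^ 2 / (2 * s)) := by
        ring
      rw [h10]
      nlinarith
  have e6 : ∑ i ∈ univ.erase i0, ∑ j ∈ univ.erase i0, (if μ i = μ j then q i * q j else 0) ≤
      (1 - x) ^ 2 - (d * (1 - x) - μ i0 ^ 2 * x) / s := by
    calc _ ≤ ∑ i ∈ univ.erase i0, ∑ j ∈ univ.erase i0,
          (q i * q j - q i * q j * (μ i - μ j) ^ 2 / (2 * s)) :=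
        Finset.sum_le_sum fun i hi => Finset.sum_le_sum fun j hj => e5 i hi j hj
      _ = (1 - x) ^ 2 - (2 * (d * (1 - x) - μ i0 ^ 2 * x)) / (2 * s) := by
        simp only [Finset.sum_sub_distrib, ← Finset.sum_div]
        rw [e4]
        simp only [← Finset.mul_sum, ← Finset.sum_mul]
        rw [e1]; ring
      _ = _ := by
        rw [mul_div_mul_left _ _ (by norm_num : (2 : ℝ) ≠ 0)]
  -- split
  rw [← Finset.add_sum_erase univ _ (Finset.mem_univ i0)]
  have e7 : ∑ j, (if μ i0 = μ j then q i0 * q j else 0) = x ^ 2 := by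
    rw [← Finset.add_sum_erase univ _ (Finset.mem_univ i0)]
    rw [Finset.sum_eq_zero]
    · simp [hx, pow_two]
    · intro j hj
      rw [if_neg]
      exact fun h => hne j (Finset.ne_of_mem_erase hj) h.symm
  have e8 : ∑ i ∈ univ.erase i0, ∑ j, (if μ i = μ j then q i * q j else 0) =
      ∑ i ∈ univ.erase i0, ∑ j ∈ univ.erase i0, (if μ i = μ j then q i * q j else 0) := by
    apply Finset.sum_congr rfl
    intro i hi
    rw [← Finset.add_sum_erase univ _ (Finset.mem_univ i0), if_neg, zero_add]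
    exact hne i (Finset.ne_of_mem_erase hi)
  rw [e7, e8]
  nlinarith

end

end Pool.Agent.V11293.MIX
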