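import Pool.Agent.V11293.MIX.Comb

set_option autoImplicit false

namespace Pool.Agent.V11293.MIX

open Finset

theorem poly_pair (p q : ℝ) (hq : 0 ≤ q) (hqp : q ≤ p) (hp : p ^ 2 ≤ 27 / 64) :
    2 * (p ^ 2 - q ^ 2) ^ 2 ≤ p * (p - q) := by
  have hp0 : 0 ≤ p := le_trans hq hqp
  have h1 : (p - q) * (p + q) ^ 2 ≤ 32 / 27 * p ^ 3 := by
    have : 32 / 27 * p ^ 3 - (p - q) * (p + q) ^ 2 = (q - p / 3) ^ 2 * (q + 5 * p / 3) := by ring
    have h2 : 0 ≤ (q - p / 3) ^ 2 * (q + 5 * p / 3) := by positivity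
    linarith
  have h3 : 2 * ((p - q) * (p + q) ^ 2) ≤ p := by
    have h4 : 64 / 27 * p ^ 3 ≤ p := by
      have : p - 64 / 27 * p ^ 3 = p * (1 - 64 / 27 * p ^ 2) := by ring
      have h5 : 0 ≤ p * (1 - 64 / 27 * p ^ 2) := mul_nonneg hp0 (by linarith)
      linarith
    linarith
  have h6 : p * (p - q) - 2 * (p ^ 2 - q ^ 2) ^ 2 = (p - q) * (p - 2 * ((p - q) * (p + q) ^ 2)) := by
    ring
  have h7 : 0 ≤ (p - q) * (p - 2 * ((p - q) * (p + q) ^ 2)) :=
    mul_nonneg (by linarith) (by linarith)
  linarith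

section
variable {V : Type*} [Fintype V] [DecidableEq V] {A : V → V → ℝ} {v : V → ℝ} {lam : ℝ}

theorem pair_le_aux (h : PD A v lam) (hl : 0 < lam) (a c : V) (ha : v a ^ 2 ≤ 27 / 64)
    (hac : v c ≤ v a) : 2 * lam * Cs v a c ≤ Rs A v a c := by
  have h1 := Rs_lower h a c
  have h2 := poly_pair (v a) (v c) (h.pos c).le hac ha
  have h3 : 0 ≤ A a c * (v a * (v a - v c)) :=
    mul_nonneg (A_nonneg h a c) (mul_nonneg (h.pos a).le (by linarith))
  unfold Cs
  nlinarith [mul_le_mul_of_nonneg_left h2 hl.le]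

theorem pair_le (h : PD A v lam) (hl : 0 < lam) (a c : V) (ha : v a ^ 2 ≤ 27 / 64)
    (hc : v c ^ 2 ≤ 27 / 64) : 2 * lam * Cs v a c ≤ Rs A v a c := by
  rcases le_total (v c) (v a) with hac | hac
  · exact pair_le_aux h hl a c ha hac
  · have h1 := pair_le_aux h hl c a hc hac
    rw [Rs_symm] at h1
    have h2 : Cs v c a = Cs v a c := by unfold Cs; ring
    rw [h2] at h1
    exact h1

theorem lam_sq_ge (h : PD A v lam) (a : V) : ∑ b, A a b ≤ lam ^ 2 := by
  have h1 : (∑ b, A a b) * v a ≤ lam ^ 2 * v a := by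
    have h2 : lam ^ 2 * v a = ∑ b, A a b * (lam * v b) := by
      have : ∑ b, A a b * (lam * v b) = lam * ∑ b, A a b * v b := by
        rw [Finset.mul_sum]; exact Finset.sum_congr rfl fun b _ => by ring
      rw [this, h.eig a]; ring
    rw [h2, Finset.sum_mul]
    apply Finset.sum_le_sum
    intro b _
    rcases h.zo a b with h0 | h0
    · simp [h0]
    · rw [h0, one_mul, one_mul, ← h.eig b]
      have h3 : A b a * v a ≤ ∑ c, A b c * v c :=
        Finset.single_le_sum (f := fun c => A b c * v c)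
          (fun c _ => mul_nonneg (A_nonneg h b c) (h.pos c).le) (Finset.mem_univ a)
      rw [h.symm b a, h0, one_mul] at h3
      exact h3
  exact le_of_mul_le_mul_right h1 (h.pos a)

theorem zo_sq (h : PD A v lam) (a b : V) : A a b ^ 2 = A a b := by
  rcases h.zo a b with h0 | h0 <;> simp [h0]

theorem nA_zo (h : PD A v lam) (a b : V) : nA A a b = 0 ∨ nA A a b = 1 := by
  unfold nA
  by_cases hb : b = a
  · subst hb
    simp [h.diag]
  · rcases h.zo a b with h0 | h0 <;> simp [hb, h0]

theorem nA_sq (h : PD A v lam) (a b : V) : nA A a b ^ 2 = nA A a b := by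
  rcases nA_zo h a b with h0 | h0 <;> simp [h0]

theorem cs_nb (h : PD A v lam) (a : V) :
    (lam * v a) ^ 2 ≤ (∑ b, A a b) * ∑ b, A a b * v b ^ 2 := by
  have h1 := Finset.sum_mul_sq_le_sq_mul_sq (univ : Finset V) (fun b => A a b) (fun b => A a b * v b)
  have h2 : ∑ b, A a b * (A a b * v b) = lam * v a := by
    rw [← h.eig a]
    refine Finset.sum_congr rfl fun b _ => ?_
    rw [← mul_assoc, ← pow_two, zo_sq h]
  have h3 : ∑ b, A a b ^ 2 = ∑ b, A a b := Finset.sum_congr rfl fun b _ => zo_sq h a b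
  have h4 : ∑ b, (A a b * v b) ^ 2 = ∑ b, A a b * v b ^ 2 :=
    Finset.sum_congr rfl fun b _ => by rw [mul_pow, zo_sq h]
  rw [h2, h3, h4] at h1
  exact h1

theorem cs_non (h : PD A v lam) (a : V) :
    (∑ b, nA A a b * v b) ^ 2 ≤ (∑ b, nA A a b) * ∑ b, nA A a b * v b ^ 2 := by
  have h1 := Finset.sum_mul_sq_le_sq_mul_sq (univ : Finset V) (fun b => nA A a b)
    (fun b => nA A a b * v b)
  have h2 : ∑ b, nA A a b * (nA A a b * v b) = ∑ b, nA A a b * v b :=
    Finset.sum_congr rfl fun b _ => by rw [← mul_assoc, ← pow_two, nA_sq h]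
  have h3 : ∑ b, nA A a b ^ 2 = ∑ b, nA A a b := Finset.sum_congr rfl fun b _ => nA_sq h a b
  have h4 : ∑ b, (nA A a b * v b) ^ 2 = ∑ b, nA A a b * v b ^ 2 :=
    Finset.sum_congr rfl fun b _ => by rw [mul_pow, nA_sq h]
  rw [h2, h3, h4] at h1
  exact h1

theorem split_sum (a : V) (f : V → ℝ) :
    ∑ b, f b = f a + ∑ b, A a b * f b + ∑ b, nA A a b * f b := by
  unfold nA
  have h1 : ∀ b, (1 - A a b - if b = a then (1 : ℝ) else 0) * f b =
      f b - A a b * f b - (if b = a then 1 else 0) * f b := fun b => by ring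
  simp_rw [h1]
  rw [Finset.sum_sub_distrib, Finset.sum_sub_distrib]
  have h2 : ∑ b, (if b = a then (1 : ℝ) else 0) * f b = f a := by simp
  rw [h2]
  ring

/-- The degree is a natural number. -/
theorem deg_nat (h : PD A v lam) (a : V) : ∃ m : ℕ, ∑ b, A a b = m := by
  classical
  refine ⟨(univ.filter fun b => A a b = 1).card, ?_⟩
  rw [Finset.card_filter, Nat.cast_sum]
  refine Finset.sum_congr rfl fun b _ => ?_
  rcases h.zo a b with h0 | h0 <;> simp [h0]

/-- Purely numerical heavy estimate. -/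
theorem num_heavy (N d k lam y r X2 Y1 : ℝ) (hN : 2 ≤ N) (hd : 2 ≤ d) (hk : k = N - d)
    (hk0 : 0 ≤ k) (hl : 0 < lam) (hld : d ≤ lam ^ 2) (hy1 : 27 / 64 < y)
    (hr : 0 ≤ r) (hX : 0 ≤ X2) (h1 : lam ^ 2 * y ≤ d * Y1) (h2 : r ^ 2 * y ≤ k * X2)
    (h3 : y + Y1 + X2 = 1) :
    2 * N * y - 2 * N / (N + 1) + 1 + (lam - d / lam) + r ≤ N := by
  have hN0 : 0 < N := by linarith
  have hd0 : 0 < d := by linarith
  set η := lam ^ 2 - d with hη
  have hη0 : 0 ≤ η := by rw [hη]; linarith
  have e1 : lam - d / lam = η / lam := by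
    rw [hη]; field_simp
  -- lower bound for 1 - 2y
  have hw : η * y / d + X2 ≤ 1 - 2 * y := by
    have : lam ^ 2 * y / d ≤ Y1 := by
      rw [div_le_iff₀ hd0]; linarith
    have h4 : η * y / d = lam ^ 2 * y / d - y := by
      rw [hη]; field_simp
    rw [h4]; linarith
  have hηd : η ≤ 10 / 27 * d := by
    have h5 : η * y / d ≤ 5 / 32 := by linarith
    rw [div_le_iff₀ hd0] at h5
    nlinarith
  -- eta part
  have p1 : η / lam ≤ η * y + 160 / 729 := by
    rw [div_le_iff₀ hl]
    by_cases hc : lam * y ≥ 1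
    · nlinarith [mul_nonneg hη0 (sub_nonneg.mpr hc)]
    · push Not at hc
      have h6 : η * (1 - lam * y) ≤ 10 / 27 * lam ^ 2 * (1 - lam * y) :=
        mul_le_mul_of_nonneg_right (by nlinarith) (by linarith)
      have h7 : 10 / 27 * lam ^ 2 * (1 - lam * y) ≤ 10 / 27 * lam ^ 2 * (1 - lam * (27 / 64)) := by
        apply mul_le_mul_of_nonneg_left _ (by positivity)
        nlinarith
      have h8 : lam * (1 - lam * (27 / 64)) ≤ 16 / 27 := by
        nlinarith [sq_nonneg (lam - 32 / 27)]
      have h9 : 10 / 27 * lam ^ 2 * (1 - lam * (27 / 64)) ≤ 10 / 27 * lam * (16 / 27) := by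
        have : 10 / 27 * lam ^ 2 * (1 - lam * (27 / 64)) = 10 / 27 * lam * (lam * (1 - lam * (27 / 64))) := by
          ring
        rw [this]
        exact mul_le_mul_of_nonneg_left h8 (by positivity)
      nlinarith
  -- r part
  have p2 : r ≤ N * X2 + 16 / 27 * (k / N) := by
    rcases hk0.eq_or_lt with hk1 | hk1
    · have h5 : r ^ 2 * y ≤ 0 := by rw [← hk1] at h2; linarith
      have h6 : r = 0 := by
        by_contra hne
        have : 0 < r ^ 2 := by positivity
        nlinarith
      rw [h6, ← hk1]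
      have : 0 ≤ N * X2 := by positivity
      rw [zero_div]
      linarith
    · have h5 : 27 / 64 * r ^ 2 ≤ k * X2 := by nlinarith [sq_nonneg r]
      have h6 : 27 / 64 * r ^ 2 / k ≤ X2 := by
        rw [div_le_iff₀ hk1]; linarith
      have h7 : r ≤ N * (27 / 64 * r ^ 2 / k) + 16 / 27 * (k / N) := by
        have : N * (27 / 64 * r ^ 2 / k) + 16 / 27 * (k / N) - r =
            27 / 64 * (N / k) * (r - 32 / 27 * (k / N)) ^ 2 := by
          field_simp
          ring
        have h8 : 0 ≤ 27 / 64 * (N / k) * (r - 32 / 27 * (k / N)) ^ 2 := by positivity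
        linarith
      nlinarith
  -- combine
  have p3 : η * y ≤ N * (η * y / d) := by
    have hNd : d ≤ N := by linarith
    have : η * y = d * (η * y / d) := by field_simp
    have h9 : 0 ≤ η * y / d := by positivity
    nlinarith
  have p4 : 16 / 27 * (k / N) + 160 / 729 ≤ 2 * N / (N + 1) - 1 := by
    have h10 : k / N ≤ (N - 2) / N := by
      apply div_le_div_of_nonneg_right _ hN0.le
      linarith
    have h11 : 16 / 27 * ((N - 2) / N) + 160 / 729 ≤ 2 * N / (N + 1) - 1 := by
      have h12 : 2 * N / (N + 1) - 1 - (16 / 27 * ((N - 2) / N) + 160 / 729) =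
          (137 * N ^ 2 - 457 * N + 864) / (729 * N * (N + 1)) := by
        field_simp
        ring
      have h13 : 0 ≤ (137 * N ^ 2 - 457 * N + 864) / (729 * N * (N + 1)) := by
        apply div_nonneg
        · nlinarith [sq_nonneg (N - 457 / 274)]
        · positivity
      linarith
    linarith
  have p5 : N * (η * y / d + X2) ≤ N * (1 - 2 * y) := mul_le_mul_of_nonneg_left hw hN0.le
  rw [e1]
  nlinarith

theorem heavy (h : PD A v lam) (hl : 0 < lam) (a : V) (ha : 27 / 64 < v a ^ 2)
    (hoth : ∀ c, c ≠ a → v c < v a) (hn : 3 ≤ Fintype.card V) :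
    2 * ((Fintype.card V : ℝ) - 1) / (Fintype.card V : ℝ) * lam * ∑ c, Cs v a c ≤ ∑ c, Rs A v a c := by
  set n : ℝ := (Fintype.card V : ℝ) with hndef
  have hn3 : (3 : ℝ) ≤ n := by rw [hndef]; exact_mod_cast hn
  have hva := h.pos a
  set p := v a with hp
  set y := p ^ 2 with hy
  set d := ∑ b, A a b with hd
  set k := ∑ b, nA A a b with hk
  set R2 := ∑ b, nA A a b * v b with hR2
  set X2 := ∑ b, nA A a b * v b ^ 2 with hX2
  set Y1 := ∑ b, A a b * v b ^ 2 with hY1
  have hkd : k = (n - 1) - d := by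
    have := split_sum (A := A) a (fun _ => (1 : ℝ))
    simp only [mul_one, Finset.sum_const, Finset.card_univ, nsmul_eq_mul] at this
    rw [hk, hd, hndef]; linarith
  have hk0 : 0 ≤ k := Finset.sum_nonneg fun b _ => nA_nonneg h a b
  have hR20 : 0 ≤ R2 := Finset.sum_nonneg fun b _ => mul_nonneg (nA_nonneg h a b) (h.pos b).le
  have hX20 : 0 ≤ X2 := Finset.sum_nonneg fun b _ => mul_nonneg (nA_nonneg h a b) (sq_nonneg _)
  have hsum2 : y + Y1 + X2 = 1 := by
    have := split_sum (A := A) a (fun b => v b ^ 2)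
    rw [h.norm] at this
    rw [hy, hp, hY1, hX2]; linarith
  have hsum1 : ∑ b, v b = p + lam * p + R2 := by
    have := split_sum (A := A) a (fun b => v b)
    rw [h.eig a] at this
    exact this
  have hcs1 : lam ^ 2 * y ≤ d * Y1 := by
    have := cs_nb h a
    rw [hy, hp, hd, hY1]; linarith [this, mul_pow lam (v a) 2]
  have hcs2 : R2 ^ 2 ≤ k * X2 := cs_non h a
  have hld : d ≤ lam ^ 2 := lam_sq_ge h a
  have hd1 : 1 ≤ d := h.deg a
  have hd2 : 2 ≤ d := by
    have hlt : lam < d := by
      have h5 : lam * p < d * p := by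
        rw [hp, ← h.eig a, hd, Finset.sum_mul]
        apply Finset.sum_lt_sum
        · intro b _
          rcases h.zo a b with h0 | h0
          · simp [h0]
          · have hb : b ≠ a := by
              rintro rfl
              rw [h.diag] at h0
              norm_num at h0
            rw [h0, one_mul, one_mul]
            exact (hoth b hb).le
        · by_contra hcon
          push Not at hcon
          have h6 : d ≤ 0 := by
            rw [hd]
            apply Finset.sum_nonpos
            intro b hb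
            rcases h.zo a b with h0 | h0
            · rw [h0]
            · have hb' : b ≠ a := by
                rintro rfl
                rw [h.diag] at h0
                norm_num at h0
              have h7 := hcon b hb
              rw [h0, one_mul, one_mul] at h7
              exact absurd (hoth b hb') (not_lt.mpr h7)
          linarith
      exact lt_of_mul_lt_mul_right h5 hva.le
    obtain ⟨m, hm⟩ := deg_nat h a
    have h8 : 1 < d := by nlinarith
    rw [hd, hm] at h8 ⊢
    have h9 : 1 < m := by exact_mod_cast h8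
    exact_mod_cast h9
  have hr0 : 0 ≤ R2 / p := div_nonneg hR20 hva.le
  have hr2 : (R2 / p) ^ 2 * y ≤ k * X2 := by
    rw [div_pow, hy, div_mul_cancel₀ _ (by positivity)]
    exact hcs2
  have hmain := num_heavy (n - 1) d k lam y (R2 / p) X2 Y1 (by linarith) hd2 hkd hk0 hl hld ha hr0
    hX20 hcs1 hr2 hsum2
  have e2 : n - 1 + 1 = n := by ring
  rw [e2] at hmain
  -- cost bound
  have hcost : ∑ c, Cs v a c ≤ y * (n * y - 1) := by
    have h10 : ∑ c, Cs v a c = n * y ^ 2 - 2 * y + ∑ c, v c ^ 2 * v c ^ 2 := by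
      unfold Cs
      have h11 : ∀ c, (v a ^ 2 - v c ^ 2) ^ 2 = y ^ 2 - 2 * y * v c ^ 2 + v c ^ 2 * v c ^ 2 := by
        intro c; rw [hy, hp]; ring
      simp_rw [h11]
      simp only [Finset.sum_add_distrib, Finset.sum_sub_distrib, ← Finset.mul_sum,
        Finset.sum_const, Finset.card_univ, nsmul_eq_mul, h.norm]
      rw [hndef]; ring
    have h12 : ∑ c, v c ^ 2 * v c ^ 2 ≤ y := by
      have h13 : ∑ c, v c ^ 2 * v c ^ 2 ≤ ∑ c, y * v c ^ 2 := by
        apply Finset.sum_le_sum
        intro c _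
        apply mul_le_mul_of_nonneg_right _ (sq_nonneg _)
        rw [hy, hp]
        by_cases hc : c = a
        · rw [hc]
        · exact pow_le_pow_left₀ (h.pos c).le (hoth c hc).le 2
      rw [← Finset.mul_sum, h.norm, mul_one] at h13
      exact h13
    rw [h10]; nlinarith
  -- resource bound
  have hres : lam * (y * ((n - 1) - lam - R2 / p + d / lam - 1)) ≤ ∑ c, Rs A v a c := by
    have h14 : ∑ c, (lam + A a c) * v a * (v a - v c) ≤ ∑ c, Rs A v a c :=
      Finset.sum_le_sum fun c _ => Rs_lower h a c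
    have h15 : ∑ c, (lam + A a c) * v a * (v a - v c) =
        lam * p * (n * p - ∑ c, v c) + p * (d * p - lam * p) := by
      have h16 : ∀ c, (lam + A a c) * v a * (v a - v c) =
          lam * p * (p - v c) + p * (A a c * p - A a c * v c) := by
        intro c; rw [hp]; ring
      simp_rw [h16]
      rw [Finset.sum_add_distrib, ← Finset.mul_sum, ← Finset.mul_sum, Finset.sum_sub_distrib,
        Finset.sum_sub_distrib, ← Finset.sum_mul, h.eig a]
      simp only [Finset.sum_const, Finset.card_univ, nsmul_eq_mul]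
      rw [hndef]
    rw [h15, hsum1] at h14
    refine le_trans (le_of_eq ?_) h14
    rw [hy]
    field_simp
    ring
  have hn0 : 0 < n := by linarith
  have hcoef : 0 ≤ 2 * (n - 1) / n * lam := by
    apply mul_nonneg (div_nonneg (by linarith) hn0.le) hl.le
  have hy0 : 0 < y := by positivity
  calc 2 * (n - 1) / n * lam * ∑ c, Cs v a c ≤ 2 * (n - 1) / n * lam * (y * (n * y - 1)) :=
        mul_le_mul_of_nonneg_left hcost hcoef
    _ = lam * (y * (2 * (n - 1) * y - 2 * (n - 1) / n)) := by
        field_simp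
    _ ≤ lam * (y * ((n - 1) - lam - R2 / p + d / lam - 1)) := by
        apply mul_le_mul_of_nonneg_left _ hl.le
        apply mul_le_mul_of_nonneg_left _ hy0.le
        linarith
    _ ≤ _ := hres

end

end Pool.Agent.V11293.MIX
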