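import Pool.Agent.V11293.MIX.Heavy

set_option autoImplicit false

namespace Pool.Agent.V11293.MIX

open Finset

section
variable {V : Type*} [Fintype V] [DecidableEq V] {A : V → V → ℝ} {v : V → ℝ} {lam : ℝ}

theorem nb_ge (h : PD A v lam) (a b : V) (hab : A a b = 1) : v a ≤ lam * v b := by
  rw [← h.eig b]
  have h3 : A b a * v a ≤ ∑ c, A b c * v c :=
    Finset.single_le_sum (f := fun c => A b c * v c)
      (fun c _ => mul_nonneg (A_nonneg h b c) (h.pos c).le) (Finset.mem_univ a)
  rw [h.symm b a, hab, one_mul] at h3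
  exact h3

theorem uniq (h : PD A v lam) (hl : 0 < lam)
    (third : ∀ a c : V, a ≠ c → ∃ b, b ≠ a ∧ b ≠ c ∧ (A a b = 1 ∨ A c b = 1))
    (a c : V) (hac : a ≠ c) (ha : 27 / 64 < v a ^ 2) (hc : 27 / 64 < v c ^ 2) : False := by
  obtain ⟨b, hba, hbc, hb⟩ := third a c hac
  have hb1 : 27 / 64 < lam ^ 2 * v b ^ 2 := by
    rcases hb with hb | hb
    · have := nb_ge h a b hb
      have h2 : v a ^ 2 ≤ (lam * v b) ^ 2 := pow_le_pow_left₀ (h.pos a).le this 2
      rw [mul_pow] at h2; linarith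
    · have := nb_ge h c b hb
      have h2 : v c ^ 2 ≤ (lam * v b) ^ 2 := pow_le_pow_left₀ (h.pos c).le this 2
      rw [mul_pow] at h2; linarith
  have hsum : v a ^ 2 + v c ^ 2 + v b ^ 2 ≤ 1 := by
    rw [← h.norm]
    have h3 : ∑ e ∈ ({a, c, b} : Finset V), v e ^ 2 = v a ^ 2 + v c ^ 2 + v b ^ 2 := by
      rw [Finset.sum_insert, Finset.sum_insert, Finset.sum_singleton]
      · ring
      · simp [hbc.symm]
      · simp [hac, hba.symm]
    rw [← h3]
    exact Finset.sum_le_sum_of_subset_of_nonneg (Finset.subset_univ _) fun _ _ _ => sq_nonneg _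
  have hA : A a c ≤ 1 := by rcases h.zo a c with h0 | h0 <;> simp [h0]
  have hA0 := A_nonneg h a c
  have hp := h.pair a c hac
  have hva := h.pos a
  have hvc := h.pos c
  set σ := v a ^ 2 + v c ^ 2 with hσ
  have h4 : 2 * A a c * v a * v c ≤ σ := by
    have h5 : 2 * v a * v c ≤ σ := by rw [hσ]; nlinarith [sq_nonneg (v a - v c)]
    have h6 : A a c * (2 * v a * v c) ≤ 1 * (2 * v a * v c) :=
      mul_le_mul_of_nonneg_right hA (by positivity)
    nlinarith
  have hσ1 : 27 / 32 < σ := by rw [hσ]; linarith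
  have h7 : 2 * lam * σ ≤ lam + 1 := by
    have : σ * (2 * lam * σ) ≤ σ * (lam + 1) := by nlinarith
    exact le_of_mul_le_mul_left this (by linarith)
  have h8 : lam * (11 / 16) ≤ 1 := by nlinarith
  have h9 : lam ^ 2 ≤ 256 / 121 := by nlinarith
  have h10 : v b ^ 2 ≤ 10 / 64 := by linarith
  nlinarith [sq_nonneg (v b), sq_nonneg lam]

theorem Rs_self (h : PD A v lam) (a : V) : Rs A v a a = 0 := by
  have h1 : Df A v a a = 0 := by
    unfold Df
    apply Finset.sum_eq_zero
    intro b _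
    have : A a b * nA A a b = 0 := by
      unfold nA
      by_cases hb : b = a
      · subst hb; simp [h.diag]
      · rcases h.zo a b with h0 | h0 <;> simp [h0, hb]
    rw [this, zero_mul]
  unfold Rs; rw [h1]; ring

theorem card_ge_two (h : PD A v lam) : 2 ≤ Fintype.card V := by
  have hne : Nonempty V := by
    by_contra hcon
    rw [not_nonempty_iff] at hcon
    have := h.norm
    simp at this
  obtain ⟨a⟩ := hne
  by_contra hcon
  have hsub : Fintype.card V ≤ 1 := by omega
  have : Subsingleton V := Fintype.card_le_one_iff_subsingleton.mp hsub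
  have h1 := h.deg a
  have h2 : ∑ b, A a b = 0 := Finset.sum_eq_zero fun b _ => by
    rw [Subsingleton.elim b a]; exact h.diag a
  linarith

theorem main_pairs (h : PD A v lam) (hl : 0 < lam)
    (third : ∀ a c : V, a ≠ c → ∃ b, b ≠ a ∧ b ≠ c ∧ (A a b = 1 ∨ A c b = 1))
    (hn : 3 ≤ Fintype.card V) :
    2 * ((Fintype.card V : ℝ) - 1) / (Fintype.card V : ℝ) * lam * ∑ a, ∑ c, Cs v a c ≤
      ∑ a, ∑ c, Rs A v a c := by
  set n : ℝ := (Fintype.card V : ℝ) with hndef
  have hn3 : (3 : ℝ) ≤ n := by rw [hndef]; exact_mod_cast hn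
  set κ := 2 * (n - 1) / n * lam with hκ
  have hκ2 : κ ≤ 2 * lam := by
    rw [hκ]
    apply mul_le_mul_of_nonneg_right _ hl.le
    rw [div_le_iff₀ (by linarith)]
    linarith
  have hpw : ∀ a c, v a ^ 2 ≤ 27 / 64 → v c ^ 2 ≤ 27 / 64 → κ * Cs v a c ≤ Rs A v a c := by
    intro a c ha hc
    refine le_trans ?_ (pair_le h hl a c ha hc)
    apply mul_le_mul_of_nonneg_right hκ2
    unfold Cs; positivity
  by_cases hall : ∀ a, v a ^ 2 ≤ 27 / 64
  · rw [Finset.mul_sum]
    apply Finset.sum_le_sum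
    intro a _
    rw [Finset.mul_sum]
    exact Finset.sum_le_sum fun c _ => hpw a c (hall a) (hall c)
  · push Not at hall
    obtain ⟨a0, ha0⟩ := hall
    have hoth : ∀ c, c ≠ a0 → v c ^ 2 ≤ 27 / 64 := by
      intro c hc
      by_contra hcon
      push Not at hcon
      exact uniq h hl third c a0 hc hcon ha0
    have hlt : ∀ c, c ≠ a0 → v c < v a0 := by
      intro c hc
      have h1 := hoth c hc
      exact lt_of_pow_lt_pow_left₀ 2 (h.pos a0).le (lt_of_le_of_lt h1 ha0)
    have hh := heavy h hl a0 ha0 hlt hn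
    -- F
    have hF : 0 ≤ ∑ a, ∑ c, (Rs A v a c - κ * Cs v a c) := by
      set F : V → V → ℝ := fun a c => Rs A v a c - κ * Cs v a c with hFdef
      have hFs : ∀ a c, F a c = F c a := by
        intro a c
        simp only [hFdef]
        rw [Rs_symm]
        congr 1
        unfold Cs; ring
      have hF0 : F a0 a0 = 0 := by
        simp only [hFdef]
        rw [Rs_self h]
        unfold Cs; ring
      have hrow : 0 ≤ ∑ c, F a0 c := by
        simp only [hFdef]
        rw [Finset.sum_sub_distrib, ← Finset.mul_sum]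
        linarith
      have hrow2 : ∑ c ∈ univ.erase a0, F a0 c = ∑ c, F a0 c := by
        rw [← Finset.add_sum_erase univ (fun c => F a0 c) (Finset.mem_univ a0), hF0, zero_add]
      rw [← Finset.add_sum_erase univ (fun a => ∑ c, F a c) (Finset.mem_univ a0)]
      have h2 : 0 ≤ ∑ a ∈ univ.erase a0, ∑ c, F a c := by
        have h3 : ∀ a, ∑ c, F a c = F a a0 + ∑ c ∈ univ.erase a0, F a c := fun a =>
          (Finset.add_sum_erase univ (fun c => F a c) (Finset.mem_univ a0)).symm
        simp_rw [h3]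
        rw [Finset.sum_add_distrib]
        have h4 : ∑ a ∈ univ.erase a0, F a a0 = ∑ c, F a0 c := by
          rw [← hrow2]
          exact Finset.sum_congr rfl fun a _ => hFs a a0
        rw [h4]
        have h5 : 0 ≤ ∑ a ∈ univ.erase a0, ∑ c ∈ univ.erase a0, F a c := by
          apply Finset.sum_nonneg
          intro a ha
          apply Finset.sum_nonneg
          intro c hc
          have := hpw a c (hoth a (Finset.ne_of_mem_erase ha)) (hoth c (Finset.ne_of_mem_erase hc))
          simp only [hFdef]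
          linarith
        linarith
      linarith
    have h6 : ∑ a, ∑ c, (Rs A v a c - κ * Cs v a c) =
        ∑ a, ∑ c, Rs A v a c - κ * ∑ a, ∑ c, Cs v a c := by
      simp only [Finset.sum_sub_distrib, ← Finset.mul_sum]
    rw [h6] at hF
    linarith

/-- Main combinatorial inequality. -/
theorem comb_main (h : PD A v lam)
    (third : 3 ≤ Fintype.card V → ∀ a c : V, a ≠ c → ∃ b, b ≠ a ∧ b ≠ c ∧ (A a b = 1 ∨ A c b = 1)) :
    ∑ a, v a ^ 2 * (∑ b, A a b) + 2 * ((Fintype.card V : ℝ) - 1) * ∑ a, v a ^ 4 ≤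
      ((Fintype.card V : ℝ) - 1) + 2 * ((Fintype.card V : ℝ) - 1) / (Fintype.card V : ℝ) := by
  have h2 := card_ge_two h
  have hne : Nonempty V := Fintype.card_pos_iff.mp (by omega)
  have hl := lam_pos h
  set n : ℝ := (Fintype.card V : ℝ) with hndef
  rcases h2.eq_or_lt with h3 | h3
  · have hn2 : n = 2 := by rw [hndef, ← h3]; norm_num
    have h4 : ∀ a, ∑ b, A a b ≤ 1 := by
      intro a
      have h5 := split_sum (A := A) a (fun _ => (1 : ℝ))
      simp only [mul_one, Finset.sum_const, Finset.card_univ, nsmul_eq_mul] at h5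
      have h6 : 0 ≤ ∑ b, nA A a b := Finset.sum_nonneg fun b _ => nA_nonneg h a b
      rw [← hndef, hn2] at h5
      linarith
    have h7 : ∑ a, v a ^ 2 * (∑ b, A a b) ≤ ∑ a, v a ^ 2 := by
      apply Finset.sum_le_sum
      intro a _
      nlinarith [h4 a, sq_nonneg (v a)]
    have h8 : ∑ a, v a ^ 4 ≤ ∑ a, 1 / 2 * v a ^ 2 := by
      apply Finset.sum_le_sum
      intro a _
      have := h.half a
      nlinarith [sq_nonneg (v a)]
    rw [← Finset.mul_sum, h.norm] at h8
    rw [h.norm] at h7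
    rw [hn2]
    norm_num
    linarith
  · have hn : 3 ≤ Fintype.card V := h3
    have hm := main_pairs h hl (third hn) hn
    rw [sum_Cs h, sum_Rs h] at hm
    have hn3 : (3 : ℝ) ≤ n := by rw [hndef]; exact_mod_cast hn
    rw [← hndef] at hm
    have h9 : 2 * (n - 1) / n * lam * (2 * (n * ∑ a, v a ^ 4) - 2) =
        2 * lam * (2 * (n - 1) * ∑ a, v a ^ 4 - 2 * (n - 1) / n) := by
      field_simp
    rw [h9] at hm
    have h10 : 2 * (lam * (n - 1 - ∑ a, v a ^ 2 * ∑ b, A a b)) =
        2 * lam * (n - 1 - ∑ a, v a ^ 2 * ∑ b, A a b) := by ring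
    rw [h10] at hm
    have h11 := le_of_mul_le_mul_left hm (by linarith : (0 : ℝ) < 2 * lam)
    linarith

/-- Hong's inequality. -/
theorem hong (h : PD A v lam) :
    (Fintype.card V : ℝ) - 1 ≤ ∑ a, ∑ b, A a b - lam ^ 2 := by
  set n : ℝ := (Fintype.card V : ℝ) with hndef
  have h1 : lam ^ 2 = ∑ a, (lam * v a) ^ 2 := by
    simp_rw [mul_pow]
    rw [← Finset.mul_sum, h.norm, mul_one]
  have h2 : ∑ a, (lam * v a) ^ 2 ≤ ∑ a, (∑ b, A a b) * ∑ b, A a b * v b ^ 2 :=
    Finset.sum_le_sum fun a _ => cs_nb h a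
  have h3 : ∑ a, (∑ b, A a b) * ∑ b, A a b * v b ^ 2 =
      ∑ b, v b ^ 2 * ∑ a, A b a * ∑ c, A a c := by
    simp_rw [Finset.mul_sum]
    rw [Finset.sum_comm]
    apply Finset.sum_congr rfl
    intro b _
    apply Finset.sum_congr rfl
    intro a _
    rw [h.symm a b, Finset.sum_mul]
    apply Finset.sum_congr rfl
    intro c _
    ring
  have h4 : ∀ b, ∑ a, A b a * ∑ c, A a c ≤ ∑ a, ∑ c, A a c - (n - 1) := by
    intro b
    have h5 := split_sum (A := A) b (fun a => ∑ c, A a c)
    have h6 := split_sum (A := A) b (fun _ => (1 : ℝ))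
    simp only [mul_one, Finset.sum_const, Finset.card_univ, nsmul_eq_mul] at h6
    rw [← hndef] at h6
    have h7 : ∑ a, nA A b a ≤ ∑ a, nA A b a * ∑ c, A a c := by
      apply Finset.sum_le_sum
      intro a _
      nlinarith [nA_nonneg h b a, h.deg a]
    linarith
  have h8 : ∑ b, v b ^ 2 * ∑ a, A b a * ∑ c, A a c ≤ ∑ a, ∑ c, A a c - (n - 1) := by
    calc ∑ b, v b ^ 2 * ∑ a, A b a * ∑ c, A a c ≤ ∑ b, v b ^ 2 * (∑ a, ∑ c, A a c - (n - 1)) :=
          Finset.sum_le_sum fun b _ => mul_le_mul_of_nonneg_left (h4 b) (sq_nonneg _)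
      _ = _ := by rw [← Finset.sum_mul, h.norm, one_mul]
  linarith

end

end Pool.Agent.V11293.MIX
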