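import Pool.Agent.V11293.MIX.Main
import Pool.Agent.V11293.MIX.Dist

set_option autoImplicit false

namespace Pool.Agent.V11293.MIX

open Finset

/-- spectral data -/
structure SD {V : Type*} [Fintype V] [DecidableEq V] (A : V → V → ℝ) (μ : V → ℝ) (u : V → V → ℝ) :
    Prop where
  orthR : ∀ i j, ∑ a, u i a * u j a = if i = j then 1 else 0
  orthC : ∀ a b, ∑ i, u i a * u i b = if a = b then 1 else 0
  eig : ∀ i a, ∑ b, A a b * u i b = μ i * u i a

section
variable {V : Type*} [Fintype V] [DecidableEq V] {A : V → V → ℝ} {μ : V → ℝ} {u : V → V → ℝ}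

def coef (u : V → V → ℝ) (w : V → ℝ) (i : V) : ℝ := ∑ a, w a * u i a

theorem expand (h : SD A μ u) (w : V → ℝ) (b : V) : w b = ∑ i, coef u w i * u i b := by
  unfold coef
  simp_rw [Finset.sum_mul]
  rw [Finset.sum_comm]
  have : ∀ a, ∑ i, w a * u i a * u i b = w a * if a = b then 1 else 0 := by
    intro a
    rw [← h.orthC a b, Finset.mul_sum]
    exact Finset.sum_congr rfl fun i _ => by ring
  simp_rw [this]
  simp

theorem parseval (h : SD A μ u) (w : V → ℝ) : ∑ i, coef u w i ^ 2 = ∑ a, w a ^ 2 := by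
  have h1 : ∀ i, coef u w i ^ 2 = ∑ a, w a * (coef u w i * u i a) := by
    intro i
    rw [pow_two]
    nth_rewrite 2 [coef]
    rw [Finset.mul_sum]
    exact Finset.sum_congr rfl fun a _ => by ring
  simp_rw [h1]
  rw [Finset.sum_comm]
  apply Finset.sum_congr rfl
  intro a _
  rw [← Finset.mul_sum, ← expand h w a, pow_two]

theorem mulA (h : SD A μ u) (w : V → ℝ) (a : V) :
    ∑ b, A a b * w b = ∑ i, μ i * coef u w i * u i a := by
  have h1 : ∀ b, A a b * w b = ∑ i, coef u w i * (A a b * u i b) := by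
    intro b
    conv_lhs => rw [expand h w b]
    rw [Finset.mul_sum]
    exact Finset.sum_congr rfl fun i _ => by ring
  simp_rw [h1]
  rw [Finset.sum_comm]
  apply Finset.sum_congr rfl
  intro i _
  rw [← Finset.mul_sum, h.eig i a]
  ring

theorem quad (h : SD A μ u) (w : V → ℝ) :
    ∑ a, ∑ b, A a b * w a * w b = ∑ i, μ i * coef u w i ^ 2 := by
  have h1 : ∀ a, ∑ b, A a b * w a * w b = ∑ i, μ i * coef u w i * (w a * u i a) := by
    intro a
    have : ∑ b, A a b * w a * w b = w a * ∑ b, A a b * w b := by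
      rw [Finset.mul_sum]; exact Finset.sum_congr rfl fun b _ => by ring
    rw [this, mulA h w a, Finset.mul_sum]
    exact Finset.sum_congr rfl fun b _ => by ring
  simp_rw [h1]
  rw [Finset.sum_comm]
  apply Finset.sum_congr rfl
  intro i _
  rw [← Finset.mul_sum]
  unfold coef
  ring

theorem Aentry (h : SD A μ u) (a b : V) : A a b = ∑ i, μ i * (u i a * u i b) := by
  have h1 : ∀ i, μ i * (u i a * u i b) = ∑ c, A a c * (u i c * u i b) := by
    intro i
    have := h.eig i a
    have h2 : ∑ c, A a c * (u i c * u i b) = (∑ c, A a c * u i c) * u i b := by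
      rw [Finset.sum_mul]; exact Finset.sum_congr rfl fun c _ => by ring
    rw [h2, this]; ring
  simp_rw [h1]
  rw [Finset.sum_comm]
  have h3 : ∀ c, ∑ i, A a c * (u i c * u i b) = A a c * if c = b then 1 else 0 := by
    intro c
    rw [← Finset.mul_sum, h.orthC c b]
  simp_rw [h3]
  simp

theorem Asq (h : SD A μ u) (a : V) : ∑ c, A a c ^ 2 = ∑ i, μ i ^ 2 * (u i a * u i a) := by
  have h1 : ∀ c, A a c ^ 2 = ∑ i, μ i * u i a * (A a c * u i c) := by
    intro c
    rw [pow_two]
    nth_rewrite 2 [Aentry h a c]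
    rw [Finset.mul_sum]
    exact Finset.sum_congr rfl fun i _ => by ring
  simp_rw [h1]
  rw [Finset.sum_comm]
  apply Finset.sum_congr rfl
  intro i _
  rw [← Finset.mul_sum, h.eig i a]
  ring

/-- Perron data for the adjacency function of a connected graph. -/
structure GD (A : V → V → ℝ) : Prop where
  symm : ∀ a b, A a b = A b a
  diag : ∀ a, A a a = 0
  zo : ∀ a b, A a b = 0 ∨ A a b = 1
  conn : ∀ S : Set V, S.Nonempty → (∀ a ∈ S, ∀ b, A a b = 1 → b ∈ S) → ∀ b, b ∈ S

theorem GD.nonneg (g : GD A) (a b : V) : 0 ≤ A a b := by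
  rcases g.zo a b with h | h <;> simp [h]

theorem quad_abs (g : GD A) (w : V → ℝ) :
    |∑ a, ∑ b, A a b * w a * w b| ≤ ∑ a, ∑ b, A a b * |w a| * |w b| := by
  refine (Finset.abs_sum_le_sum_abs _ _).trans ?_
  apply Finset.sum_le_sum
  intro a _
  refine (Finset.abs_sum_le_sum_abs _ _).trans ?_
  apply Finset.sum_le_sum
  intro b _
  rw [abs_mul, abs_mul, abs_of_nonneg (g.nonneg a b)]

theorem rayleigh (h : SD A μ u) (i0 : V) (hmax : ∀ i, μ i ≤ μ i0) (w : V → ℝ) :
    ∑ a, ∑ b, A a b * w a * w b ≤ μ i0 * ∑ a, w a ^ 2 := by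
  rw [quad h, ← parseval h, Finset.mul_sum]
  exact Finset.sum_le_sum fun i _ => mul_le_mul_of_nonneg_right (hmax i) (sq_nonneg _)

theorem coef_self (h : SD A μ u) (i j : V) : coef u (u i) j = if i = j then 1 else 0 :=
  h.orthR i j

theorem quad_self (h : SD A μ u) (i : V) : ∑ a, ∑ b, A a b * u i a * u i b = μ i := by
  rw [quad h]
  simp [coef_self h]

theorem norm_self (h : SD A μ u) (i : V) : ∑ a, u i a ^ 2 = 1 := by
  have := h.orthR i i
  rw [if_pos rfl] at this
  rw [← this]
  exact Finset.sum_congr rfl fun a _ => by ring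

theorem abs_le_top (h : SD A μ u) (g : GD A) (i0 : V) (hmax : ∀ i, μ i ≤ μ i0) (i : V) :
    |μ i| ≤ μ i0 := by
  have h1 := quad_abs g (u i)
  rw [quad_self h] at h1
  have h2 := rayleigh h i0 hmax (fun a => |u i a|)
  simp only [sq_abs] at h2
  rw [norm_self h, mul_one] at h2
  exact h1.trans h2

/-- equality in Rayleigh -/
theorem eig_of_eq (h : SD A μ u) (i0 : V) (hmax : ∀ i, μ i ≤ μ i0) (w : V → ℝ)
    (hw : μ i0 * ∑ a, w a ^ 2 ≤ ∑ a, ∑ b, A a b * w a * w b) (a : V) :
    ∑ b, A a b * w b = μ i0 * w a := by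
  rw [quad h, ← parseval h, Finset.mul_sum] at hw
  have h1 : ∑ i, (μ i0 - μ i) * coef u w i ^ 2 ≤ 0 := by
    have : ∀ i, (μ i0 - μ i) * coef u w i ^ 2 = μ i0 * coef u w i ^ 2 - μ i * coef u w i ^ 2 :=
      fun i => by ring
    simp_rw [this]
    rw [Finset.sum_sub_distrib]
    linarith
  have h2 : ∀ i ∈ (univ : Finset V), 0 ≤ (μ i0 - μ i) * coef u w i ^ 2 := fun i _ =>
    mul_nonneg (by linarith [hmax i]) (sq_nonneg _)
  have h3 := (Finset.sum_eq_zero_iff_of_nonneg h2).mp (le_antisymm h1 (Finset.sum_nonneg h2))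
  rw [mulA h w a]
  conv_rhs => rw [expand h w a]
  rw [Finset.mul_sum]
  apply Finset.sum_congr rfl
  intro i hi
  have h4 := h3 i hi
  rcases mul_eq_zero.mp h4 with h5 | h5
  · have : μ i = μ i0 := by linarith
    rw [this]; ring
  · have : coef u w i = 0 := by simpa using h5
    rw [this]; ring

theorem abs_eig (h : SD A μ u) (g : GD A) (i0 : V) (hmax : ∀ i, μ i ≤ μ i0) (z : V → ℝ)
    (hz : ∀ a, ∑ b, A a b * z b = μ i0 * z a) (a : V) :
    ∑ b, A a b * |z b| = μ i0 * |z a| := by
  apply eig_of_eq h i0 hmax (fun a => |z a|)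
  simp only [sq_abs]
  have h1 : μ i0 * ∑ a, z a ^ 2 = ∑ a, ∑ b, A a b * z a * z b := by
    rw [Finset.mul_sum]
    apply Finset.sum_congr rfl
    intro a _
    have : ∑ b, A a b * z a * z b = z a * ∑ b, A a b * z b := by
      rw [Finset.mul_sum]; exact Finset.sum_congr rfl fun b _ => by ring
    rw [this, hz a]; ring
  rw [h1]
  exact (le_abs_self _).trans (quad_abs g z)

theorem zero_of_zero (g : GD A) (lam : ℝ) (y : V → ℝ) (hy0 : ∀ a, 0 ≤ y a)
    (hy : ∀ a, ∑ b, A a b * y b = lam * y a) (a : V) (ha : y a = 0) : ∀ b, y b = 0 := by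
  apply g.conn {b | y b = 0} ⟨a, ha⟩
  intro c hc b hb
  have hc' : y c = 0 := hc
  have h1 := hy c
  rw [hc', mul_zero] at h1
  have h2 : ∀ b ∈ (univ : Finset V), 0 ≤ A c b * y b := fun b _ => mul_nonneg (g.nonneg c b) (hy0 b)
  have h3 := (Finset.sum_eq_zero_iff_of_nonneg h2).mp h1 b (Finset.mem_univ b)
  rw [hb, one_mul] at h3
  exact h3

theorem simple_top (h : SD A μ u) (g : GD A) (i0 : V) (hmax : ∀ i, μ i ≤ μ i0) (i : V)
    (hi : i ≠ i0) : μ i ≠ μ i0 := by
  intro heq
  have hv := abs_eig h g i0 hmax (u i0) (h.eig i0)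
  have hpos : ∀ a, u i0 a ≠ 0 := by
    intro a ha
    have h0 := zero_of_zero g (μ i0) (fun a => |u i0 a|) (fun a => abs_nonneg _) hv a (by simp [ha])
    have h1 := norm_self h i0
    have h2 : ∑ a, u i0 a ^ 2 = 0 := Finset.sum_eq_zero fun b _ => by
      have := h0 b
      simp only [abs_eq_zero] at this
      rw [this]; ring
    linarith
  -- z = u i - c u i0 vanishing at i
  set c := u i i / u i0 i with hc
  have hz : ∀ a, ∑ b, A a b * (u i b - c * u i0 b) = μ i0 * (u i a - c * u i0 a) := by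
    intro a
    have : ∀ b, A a b * (u i b - c * u i0 b) = A a b * u i b - c * (A a b * u i0 b) := fun b => by ring
    simp_rw [this]
    rw [Finset.sum_sub_distrib, ← Finset.mul_sum, h.eig i a, h.eig i0 a, heq]
    ring
  have hz2 := abs_eig h g i0 hmax (fun b => u i b - c * u i0 b) hz
  have hz3 := zero_of_zero g (μ i0) (fun a => |u i a - c * u i0 a|) (fun a => abs_nonneg _) hz2 i
    (by simp only [abs_eq_zero]; rw [hc, div_mul_cancel₀ _ (hpos i)]; ring)
  have hz4 : ∀ a, u i a = c * u i0 a := by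
    intro a
    have := hz3 a
    simp only [abs_eq_zero] at this
    linarith
  have h5 := h.orthR i i0
  rw [if_neg hi] at h5
  have h6 : ∑ a, u i a * u i0 a = c := by
    have : ∀ a, u i a * u i0 a = c * (u i0 a * u i0 a) := fun a => by rw [hz4 a]; ring
    simp_rw [this]
    rw [← Finset.mul_sum, h.orthR i0 i0, if_pos rfl, mul_one]
  have hc0 : c = 0 := by linarith
  have h7 := norm_self h i
  have h8 : ∑ a, u i a ^ 2 = 0 := Finset.sum_eq_zero fun a _ => by rw [hz4 a, hc0]; ring
  linarith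

theorem exists_PD (h : SD A μ u) (g : GD A) (hcard : 2 ≤ Fintype.card V) :
    ∃ i0, PD A (fun a => |u i0 a|) (μ i0) ∧ (∀ i, i ≠ i0 → μ i ≠ μ i0) := by
  have hne : Nonempty V := Fintype.card_pos_iff.mp (by omega)
  obtain ⟨i0, hi0⟩ := Finite.exists_max μ
  have hv := abs_eig h g i0 hi0 (u i0) (h.eig i0)
  have hpos : ∀ a, u i0 a ≠ 0 := by
    intro a ha
    have h0 := zero_of_zero g (μ i0) (fun a => |u i0 a|) (fun a => abs_nonneg _) hv a (by simp [ha])
    have h1 := norm_self h i0
    have h2 : ∑ a, u i0 a ^ 2 = 0 := Finset.sum_eq_zero fun b _ => by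
      have := h0 b
      simp only [abs_eq_zero] at this
      rw [this]; ring
    linarith
  have hdeg : ∀ a, ∃ b, A a b = 1 := by
    intro a
    by_contra hcon
    push Not at hcon
    have h1 := g.conn {a} ⟨a, rfl⟩ (by
      intro c hc b hb
      rw [Set.mem_singleton_iff] at hc
      subst hc
      exact absurd hb (hcon b))
    have h2 : Fintype.card V ≤ 1 := Fintype.card_le_one_iff.mpr fun x y => by
      rw [Set.mem_singleton_iff.mp (h1 x), Set.mem_singleton_iff.mp (h1 y)]
    omega
  refine ⟨i0, ?_, fun i hi => simple_top h g i0 hi0 i hi⟩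
  have hdeg1 : ∀ a, 1 ≤ ∑ b, A a b := by
    intro a
    obtain ⟨b, hb⟩ := hdeg a
    have := Finset.single_le_sum (f := fun b => A a b) (fun c _ => g.nonneg a c) (Finset.mem_univ b)
    simp only [hb] at this
    exact this
  have hlpos : 0 < μ i0 := by
    obtain ⟨a⟩ := hne
    obtain ⟨b, hb⟩ := hdeg a
    have h1 : 0 < ∑ b, A a b * |u i0 b| := by
      have h2 : A a b * |u i0 b| ≤ ∑ b, A a b * |u i0 b| :=
        Finset.single_le_sum (f := fun b => A a b * |u i0 b|)
          (fun c _ => mul_nonneg (g.nonneg a c) (abs_nonneg _)) (Finset.mem_univ b)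
      rw [hb, one_mul] at h2
      exact lt_of_lt_of_le (abs_pos.mpr (hpos b)) h2
    rw [hv a] at h1
    exact (pos_iff_pos_of_mul_pos h1).mpr (abs_pos.mpr (hpos a))
  refine ⟨g.symm, g.diag, g.zo, fun a => abs_pos.mpr (hpos a), ?_, hv, ?_, ?_, hdeg1⟩
  · simp only [sq_abs]; exact norm_self h i0
  · intro a
    simp only [sq_abs]
    have h1 := Aentry h a a
    rw [g.diag a, ← Finset.add_sum_erase univ _ (Finset.mem_univ i0)] at h1
    have h2 : ∑ i ∈ univ.erase i0, -(μ i0) * (u i a * u i a) ≤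
        ∑ i ∈ univ.erase i0, μ i * (u i a * u i a) := by
      apply Finset.sum_le_sum
      intro i _
      apply mul_le_mul_of_nonneg_right _ (mul_self_nonneg _)
      exact neg_le_of_abs_le (abs_le_top h g i0 hi0 i)
    have h3 : ∑ i, u i a * u i a = 1 := by have := h.orthC a a; simpa using this
    rw [← Finset.add_sum_erase univ _ (Finset.mem_univ i0)] at h3
    rw [← Finset.mul_sum] at h2
    have h4 : ∑ i ∈ univ.erase i0, u i a * u i a = 1 - u i0 a * u i0 a := by linarith
    rw [h4] at h2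
    nlinarith
  · intro a c hac
    simp only [sq_abs]
    set w : V → ℝ := fun b => if b = a then u i0 a else if b = c then u i0 c else 0 with hw
    have hca : c ≠ a := fun h => hac h.symm
    have hwa : w a = u i0 a := by simp [hw]
    have hwc : w c = u i0 c := by simp [hw, hca]
    have hwo : ∀ b, b ≠ a → b ≠ c → w b = 0 := by
      intro b hb1 hb2; simp [hw, hb1, hb2]
    have hsum : ∀ f : V → ℝ, (∀ b, b ≠ a → b ≠ c → f b = 0) → ∑ b, f b = f a + f c := by
      intro f hf
      rw [← Finset.sum_pair hac]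
      symm
      apply Finset.sum_subset (Finset.subset_univ _)
      intro b _ hb
      rw [Finset.mem_insert, Finset.mem_singleton, not_or] at hb
      exact hf b hb.1 hb.2
    have h1 : ∑ b, w b ^ 2 = u i0 a ^ 2 + u i0 c ^ 2 := by
      rw [hsum (fun b => w b ^ 2) (fun b h1 h2 => by simp [hwo b h1 h2]), hwa, hwc]
    have h2 : coef u w i0 = u i0 a ^ 2 + u i0 c ^ 2 := by
      unfold coef
      rw [hsum (fun b => w b * u i0 b) (fun b h1 h2 => by simp [hwo b h1 h2]), hwa, hwc]
      ring
    have h3 : ∑ x, ∑ b, A x b * w x * w b = 2 * A a c * (u i0 a * u i0 c) := by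
      rw [hsum (fun x => ∑ b, A x b * w x * w b) (fun x h1 h2 => by simp [hwo x h1 h2])]
      rw [hsum (fun b => A a b * w a * w b) (fun b h1 h2 => by simp [hwo b h1 h2]),
        hsum (fun b => A c b * w c * w b) (fun b h1 h2 => by simp [hwo b h1 h2]), hwa, hwc,
        g.diag a, g.diag c, g.symm c a]
      ring
    have h4 : 2 * μ i0 * coef u w i0 ^ 2 ≤ ∑ i, (μ i + μ i0) * coef u w i ^ 2 := by
      have h5 := Finset.single_le_sum (f := fun i => (μ i + μ i0) * coef u w i ^ 2)
        (fun i _ => mul_nonneg (by linarith [neg_le_of_abs_le (abs_le_top h g i0 hi0 i)])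
          (sq_nonneg _)) (Finset.mem_univ i0)
      linarith
    have h6 : ∑ i, (μ i + μ i0) * coef u w i ^ 2 =
        2 * A a c * (u i0 a * u i0 c) + μ i0 * (u i0 a ^ 2 + u i0 c ^ 2) := by
      have : ∀ i, (μ i + μ i0) * coef u w i ^ 2 = μ i * coef u w i ^ 2 + μ i0 * coef u w i ^ 2 :=
        fun i => by ring
      simp_rw [this]
      rw [Finset.sum_add_distrib, ← quad h, ← Finset.mul_sum, parseval h, h1, h3]
    rw [h2, h6] at h4
    have h7 : 2 * A a c * (u i0 a * u i0 c) ≤ 2 * A a c * |u i0 a| * |u i0 c| := by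
      have : u i0 a * u i0 c ≤ |u i0 a| * |u i0 c| := by
        rw [← abs_mul]; exact le_abs_self _
      have h8 := mul_le_mul_of_nonneg_left this (by linarith [g.nonneg a c] : (0:ℝ) ≤ 2 * A a c)
      linarith
    linarith

/-- The main bound in abstract form. -/
theorem trace_bound (h : SD A μ u) (g : GD A) (hcard : 1 ≤ Fintype.card V) :
    ∑ a, ∑ θ ∈ univ.image μ, (∑ i ∈ univ.filter (fun i => μ i = θ), u i a * u i a) ^ 2 ≤
      ((Fintype.card V : ℝ) ^ 2 - 2 * (Fintype.card V : ℝ) + 2) / (Fintype.card V : ℝ) := by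
  set n : ℝ := (Fintype.card V : ℝ) with hn
  rcases hcard.eq_or_lt with h1 | h1
  · -- one vertex
    have hsub : Subsingleton V := Fintype.card_le_one_iff_subsingleton.mp (by omega)
    have hn1 : n = 1 := by rw [hn, ← h1]; norm_num
    rw [hn1]
    norm_num
    have h2 : ∀ a, ∑ θ ∈ univ.image μ, (∑ i ∈ univ.filter (fun i => μ i = θ), u i a * u i a) ^ 2 ≤ 1 := by
      intro a
      rw [fib_sq]
      have h3 : ∀ i j, (if μ i = μ j then u i a * u i a * (u j a * u j a) else 0) ≤
          (u i a * u i a) * (u j a * u j a) := by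
        intro i j
        split_ifs
        · exact le_rfl
        · exact mul_nonneg (mul_self_nonneg _) (mul_self_nonneg _)
      calc _ ≤ ∑ i, ∑ j, (u i a * u i a) * (u j a * u j a) :=
            Finset.sum_le_sum fun i _ => Finset.sum_le_sum fun j _ => h3 i j
        _ = 1 := by
          rw [← Finset.sum_mul_sum]
          have := h.orthC a a
          rw [if_pos rfl] at this
          rw [this]; ring
    have hne : Nonempty V := Fintype.card_pos_iff.mp (by omega)
    obtain ⟨a⟩ := hne
    have h4 : (univ : Finset V) = {a} := by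
      ext b; simp [Subsingleton.elim b a]
    rw [show (∑ a, ∑ θ ∈ univ.image μ, (∑ i ∈ univ.filter (fun i => μ i = θ), u i a * u i a) ^ 2) =
      ∑ θ ∈ univ.image μ, (∑ i ∈ univ.filter (fun i => μ i = θ), u i a * u i a) ^ 2 by
        rw [show (univ : Finset V) = {a} from h4, Finset.sum_singleton]]
    exact h2 a
  · obtain ⟨i0, hPD, hsimp⟩ := exists_PD h g h1
    set v : V → ℝ := fun a => |u i0 a| with hv
    have hx : ∀ a, u i0 a * u i0 a = v a ^ 2 := by
      intro a; rw [hv]; simp only [sq_abs]; ring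
    set M := ∑ a, ∑ b, A a b with hM
    have hHong := hong hPD
    rw [← hn] at hHong
    have hn2 : (2 : ℝ) ≤ n := by rw [hn]; exact_mod_cast h1
    set s := M - μ i0 ^ 2 with hs
    have hs1 : n - 1 ≤ s := hHong
    have hs0 : 0 < s := by linarith
    -- sum of squares of eigenvalues
    have hsumsq : ∑ i, μ i ^ 2 = M := by
      have h2 : ∀ i, μ i ^ 2 = ∑ a, μ i ^ 2 * (u i a * u i a) := by
        intro i
        rw [← Finset.mul_sum]
        have := h.orthR i i
        rw [if_pos rfl] at this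
        rw [this, mul_one]
      rw [Finset.sum_congr rfl fun i _ => h2 i]
      rw [Finset.sum_comm, hM]
      apply Finset.sum_congr rfl
      intro a _
      rw [← Asq h a]
      exact Finset.sum_congr rfl fun b _ => zo_sq hPD a b
    have hserase : s = ∑ i ∈ univ.erase i0, μ i ^ 2 := by
      rw [hs, ← hsumsq, ← Finset.add_sum_erase univ _ (Finset.mem_univ i0)]
      ring
    have hb : ∀ a, ∑ θ ∈ univ.image μ, (∑ i ∈ univ.filter (fun i => μ i = θ), u i a * u i a) ^ 2 ≤
        1 - 2 * v a ^ 2 * (1 - v a ^ 2) -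
          ((∑ b, A a b) * (1 - v a ^ 2) - μ i0 ^ 2 * v a ^ 2) / s := by
      intro a
      apply dist_bound μ (fun i => u i a * u i a) i0 (v a ^ 2) (∑ b, A a b) s
        (fun i => mul_self_nonneg _) _ _ _ (hx a) hserase hs0 hsimp
      · have := h.orthC a a; simpa using this
      · rw [← Aentry h a a]; exact g.diag a
      · rw [← Asq h a]
        exact Finset.sum_congr rfl fun b _ => zo_sq hPD a b
    have hV := comb_main hPD (by
      intro h3 a c hac
      by_contra hcon
      push Not at hcon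
      have h4 := g.conn {a, c} ⟨a, by simp⟩ (by
        intro x hx b hb
        by_contra hb2
        rw [Set.mem_insert_iff, Set.mem_singleton_iff, not_or] at hb2
        have h5 := hcon b hb2.1 hb2.2
        rw [Set.mem_insert_iff, Set.mem_singleton_iff] at hx
        rcases hx with rfl | rfl
        · exact h5.1 hb
        · exact h5.2 hb)
      have h5 : (univ : Finset V) ⊆ {a, c} := by
        intro x _
        have := h4 x
        rw [Set.mem_insert_iff, Set.mem_singleton_iff] at this
        rw [Finset.mem_insert, Finset.mem_singleton]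
        exact this
      have h6 := Finset.card_le_card h5
      rw [Finset.card_univ] at h6
      have h7 := Finset.card_le_two (a := a) (b := c)
      omega)
    rw [← hn] at hV
    set Q := ∑ a, v a ^ 4 with hQ
    set W := ∑ a, v a ^ 2 * ∑ b, A a b with hW
    have hnorm : ∑ a, v a ^ 2 = 1 := hPD.norm
    have htot : ∑ a, (1 - 2 * v a ^ 2 * (1 - v a ^ 2) -
          ((∑ b, A a b) * (1 - v a ^ 2) - μ i0 ^ 2 * v a ^ 2) / s) =
        n - 2 + 2 * Q - (M - W - μ i0 ^ 2) / s := by
      have h8 : ∀ a, (1 - 2 * v a ^ 2 * (1 - v a ^ 2) -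
          ((∑ b, A a b) * (1 - v a ^ 2) - μ i0 ^ 2 * v a ^ 2) / s) =
          1 - 2 * v a ^ 2 + 2 * v a ^ 4 -
            ((∑ b, A a b) - v a ^ 2 * (∑ b, A a b) - μ i0 ^ 2 * v a ^ 2) / s := by
        intro a; ring
      simp_rw [h8]
      rw [Finset.sum_sub_distrib, ← Finset.sum_div]
      simp only [Finset.sum_add_distrib, Finset.sum_sub_distrib, ← Finset.mul_sum,
        Finset.sum_const, Finset.card_univ, nsmul_eq_mul, mul_one]
      rw [hnorm, ← hM, ← hW, ← hQ, ← hn]
      ring
    have h9 := (Finset.sum_le_sum fun a (_ : a ∈ (univ : Finset V)) => hb a).trans (le_of_eq htot)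
    refine h9.trans ?_
    have hN : 0 < n - 1 := by linarith
    have hW0 : 0 ≤ W := Finset.sum_nonneg fun a _ =>
      mul_nonneg (sq_nonneg _) (Finset.sum_nonneg fun b _ => g.nonneg a b)
    have h10 : (M - W - μ i0 ^ 2) / s = 1 - W / s := by
      have : M - W - μ i0 ^ 2 = s - W := by rw [hs]; ring
      rw [this, sub_div, div_self hs0.ne']
    have h11 : W / s ≤ W / (n - 1) := div_le_div_of_nonneg_left hW0 hN hs1
    have h12 : W / (n - 1) + 2 * Q ≤ 1 + 2 / n := by
      have : W / (n - 1) + 2 * Q = (W + 2 * (n - 1) * Q) / (n - 1) := by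
        field_simp
      rw [this, div_le_iff₀ hN]
      refine hV.trans (le_of_eq ?_)
      have : n ≠ 0 := by linarith
      field_simp
    have h13 : (n ^ 2 - 2 * n + 2) / n = n - 2 + 2 / n := by
      have : n ≠ 0 := by linarith
      field_simp
    rw [h10, h13]
    linarith

end

end Pool.Agent.V11293.MIX
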